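import Pool.Agent.H59.L.S8.H920R2.Crit

set_option autoImplicit false

open HomogeneousLocalization AlgebraicGeometry CategoryTheory TopologicalSpace
open Pool.Agent.Helper165

universe u v w

namespace Pool.Agent.H920R2

section chart

variable {k A : Type u} [Field k] [CommRing A] [Algebra k A] {K : Type v} [Field K]
  [Algebra k K] (g : A →ₐ[k] K) (hg : Function.Injective g) (J : Ideal A)
  {ι : Type w} (z : ι → A) (hJ : J = Ideal.span (Set.range z))

include hg hJ in
lemma chart_smooth' (s : ι) (hs : z s ∈ J) (hs0 : z s ≠ 0) (C : Subalgebra k K)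
    (hC : Algebra.Smooth k C) (h1 : ∀ a, g a ∈ C)
    (h2 : ∀ i, g (z i) / g (z s) ∈ C)
    (h3 : C ≤ Algebra.adjoin k (Set.range g ∪ Set.range fun i => g (z i) / g (z s))) :
    letI := chartAlg (k := k) J (z s) hs
    Algebra.Smooth k (Away (reesPiece J) (tElt J (z s) hs)) := by
  letI : Algebra k (Away (reesPiece J) (tElt J (z s) hs)) := chartAlg (k := k) J (z s) hs
  have hgz : g.toRingHom (z s) ≠ 0 := fun h => hs0 ((map_eq_zero_iff g hg).1 h)
  let Ψ : Away (reesPiece J) (tElt J (z s) hs) →ₐ[k] K :=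
    { psi J g.toRingHom (z s) hs hgz with
      commutes' := by
        intro r
        change psi J g.toRingHom (z s) hs hgz (chartMap J (z s) hs (algebraMap k A r)) = _
        rw [psi_chartMap]
        exact g.commutes r }
  have hΨ : Function.Injective Ψ := psi_injective J g.toRingHom (z s) hs hgz hg
  have hΨfrac : ∀ (n : ℕ) (b : A) (hb : b ∈ J ^ n), Ψ (frac J (z s) hs n b hb) =
      g b / g (z s) ^ n := fun n b hb => psi_frac J g.toRingHom (z s) hs hgz n b hb
  have hmemJ : ∀ i, z i ∈ J := fun i => by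
    rw [hJ]; exact Ideal.subset_span ⟨i, rfl⟩
  have hle : Algebra.adjoin k (Set.range g ∪ Set.range fun i => g (z i) / g (z s)) ≤
      Ψ.range := by
    rw [Algebra.adjoin_le_iff]
    rintro x (⟨a, rfl⟩ | ⟨i, rfl⟩)
    · exact ⟨chartMap J (z s) hs a, psi_chartMap J g.toRingHom (z s) hs hgz a⟩
    · refine ⟨frac J (z s) hs 1 (z i) (by simpa using hmemJ i), ?_⟩
      change Ψ _ = _
      rw [hΨfrac, pow_one]
  have hrange : Ψ.range = C := by
    apply le_antisymm
    · rintro _ ⟨x, rfl⟩
      obtain ⟨n, b, hb, rfl⟩ := exists_frac J (z s) hs x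
      have h := div_pow_mem g J z hJ s _ h1 h2 n hb
      change Ψ _ ∈ C
      rw [hΨfrac]
      exact h
    · exact h3.trans hle
  have e1 : Away (reesPiece J) (tElt J (z s) hs) ≃ₐ[k] Ψ.range := AlgEquiv.ofInjective Ψ hΨ
  rw [hrange] at e1
  exact Algebra.Smooth.of_equiv e1.symm

end chart

section main

variable {k A : Type u} [Field k] [CommRing A] [IsDomain A] [Algebra k A] {K : Type v} [Field K]
  [Algebra k K] (g : A →ₐ[k] K) (hg : Function.Injective g)
  {ι : Type w} [Finite ι] (z : ι → A)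

include hg in
/-- Criterion for the blowup of `Spec A` in the ideal generated by `z` to be a resolution of
singularities: the charts are given by smooth subalgebras. -/
theorem hasResolution_of_charts' (S : Set ι)
    (hV : ∀ V : ValuationSubring K, (∀ a, g a ∈ V) →
      ∃ s ∈ S, z s ≠ 0 ∧ ∀ i, g (z i) / g (z s) ∈ V)
    (hc : ∀ s ∈ S, z s ≠ 0 → ∃ C : Subalgebra k K,
      Algebra.Smooth k C ∧ (∀ a, g a ∈ C) ∧ (∀ i, g (z i) / g (z s) ∈ C) ∧
      C ≤ Algebra.adjoin k (Set.range g ∪ Set.range fun i => g (z i) / g (z s))) :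
    HasResolution (X := Spec (CommRingCat.of A))
      (Spec.map (CommRingCat.ofHom (algebraMap k A))) := by
  classical
  set J : Ideal A := Ideal.span (Set.range z) with hJ
  have hmem : ∀ i, z i ∈ J := fun i => Ideal.subset_span ⟨i, rfl⟩
  have hFG : J.FG := Submodule.fg_span (Set.finite_range z)
  have hcover := cover_of_valuative g.toRingHom J z hg hJ S hmem hV
  obtain ⟨s0, -, hs0, -⟩ := hV ⊤ (fun a => trivial)
  let T := {s : ι // s ∈ S ∧ z s ≠ 0}
  have hsup : ⨆ s : T, (blowChart J (z s.1) (hmem s.1)).opensRange = ⊤ := by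
    rw [eq_top_iff]
    intro y _
    rw [Opens.mem_iSup]
    obtain ⟨s, hs, hs0, hy⟩ := hcover y
    exact ⟨⟨s, hs, hs0⟩, hy⟩
  refine ⟨blow J, blowMap J, blow_integral J (z s0) (hmem s0) hs0, blowMap_isProper J hFG,
    ?_, PrimeSpectrum.basicOpen (z s0), ?_, isIso_blowMap_restrict J (z s0) (hmem s0) hs0⟩
  · rw [IsZariskiLocalAtSource.iff_of_iSup_eq_top (P := @Smooth.{u})
      (fun s : T => (blowChart J (z s.1) (hmem s.1)).opensRange) hsup]
    rintro ⟨s, hs, hs0⟩
    rw [← MorphismProperty.cancel_left_of_respectsIso (P := @Smooth.{u})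
      (blowChart J (z s) (hmem s)).isoOpensRange.hom]
    have hcm : blowChart J (z s) (hmem s) ≫ blowMap J ≫
        Spec.map (CommRingCat.ofHom (algebraMap k A)) =
        Spec.map (CommRingCat.ofHom ((chartMap J (z s) (hmem s)).comp (algebraMap k A))) := by
      rw [← Category.assoc, blowChart_blowMap, ← Spec.map_comp]
      rfl
    rw [← Category.assoc, Scheme.Hom.isoOpensRange_hom_ι, hcm,
      HasRingHomProperty.Spec_iff (P := @Smooth.{u})]
    obtain ⟨C, hc0, hc1, hc2, hc3⟩ := hc s hs hs0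
    let _ := chartAlg (k := k) J (z s) (hmem s)
    have h := chart_smooth' g hg J z hJ s (hmem s) hs0 C hc0 hc1 hc2 hc3
    exact RingHom.smooth_algebraMap.2 h
  · let U : (Spec (CommRingCat.of A)).Opens := PrimeSpectrum.basicOpen (z s0)
    have hne : (U : Set (Spec (CommRingCat.of A))).Nonempty := by
      refine ⟨(⊥ : PrimeSpectrum A), ?_⟩
      change z s0 ∉ (⊥ : PrimeSpectrum A).asIdeal
      intro h
      have h2 : z s0 ∈ (⊥ : Ideal A) := h
      exact hs0 h2
    have hint : IsIntegral (Spec (CommRingCat.of A)) := inferInstance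
    exact U.isOpen.dense hne

end main

end Pool.Agent.H920R2
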